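import Pool.Agent.Lib_helper74.CCF.Main

/-!
# Degree-universal crossing-critical families without degree 4 (MP_198240_co, question Q1)

Definitions (graphs, drawings, crossing number, criticality, 3-connectivity, max-universal
families, achievable sets) are in `Pool/Agent/Lib_helper74/CCF/Statement.lean`.
-/

namespace Pool.Agent.Results.MP_198240_co.DegreeSetsWithoutFour

open Pool.Agent.CC

/-- Every finite set `D` with `min D = 3`, `4 ∉ D` and `D ≠ {3}` is achievable: for all sufficiently
large `k` there is a `D`-max-universal family of simple, 3-connected, `k`-crossing-critical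
graphs. -/
theorem result : ∀ D : Finset ℕ, 3 ∈ D → (∀ d ∈ D, 3 ≤ d) → 4 ∉ D → D ≠ {3} → Achievable D :=
  Pool.Agent.CC.main

end Pool.Agent.Results.MP_198240_co.DegreeSetsWithoutFour
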